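import Pool.Agent.EGF.Stmts

/-!
# Row DRE of squad EGF

Dependent random choice in a colouring, from DRC.
-/

set_option autoImplicit false

open Finset

namespace Pool.Agent.EGF.H33

theorem dre (hDrc : DrcStmt) : DreStmt := by
  intro V _ k c X Y a t ε s hX hY ht ht2 hε hε1 hs hdeg
  set n : ℝ := (X.card : ℝ) with hn
  have hn1 : (1 : ℝ) ≤ n := by
    rw [hn]; exact_mod_cast hX.card_pos
  have hn0 : 0 < n := by linarith
  have htlog : 0 < Real.log (1 / t) := by
    apply Real.log_pos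
    rw [lt_div_iff₀ ht]; linarith
  set L : ℝ := Real.log (1 / t) with hL
  have hLt : Real.log t = -L := by
    rw [hL, one_div, Real.log_inv, neg_neg]
  set P : ℝ := ε * Real.log (2 * n) with hP
  have hlog2n : 0 ≤ Real.log (2 * n) := Real.log_nonneg (by linarith)
  have hP0 : 0 ≤ P := mul_nonneg hε.le hlog2n
  set τ : ℕ := ⌈P / L⌉₊ with hτ
  have hτ1 : P / L ≤ (τ : ℝ) := Nat.le_ceil _
  have hτ2 : (τ : ℝ) < P / L + 1 := Nat.ceil_lt_add_one (div_nonneg hP0 htlog.le)
  have hτL1 : P ≤ τ * L := (div_le_iff₀ htlog).1 hτ1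
  have hτL2 : τ * L ≤ P + L := by
    have h1 := mul_le_mul_of_nonneg_right hτ2.le htlog.le
    rw [add_mul, one_mul, div_mul_cancel₀ _ htlog.ne'] at h1
    exact h1
  set η : ℝ := t ^ (1 + (s : ℝ) / ε) with hη
  have hη0 : 0 < η := Real.rpow_pos_of_pos ht _
  have hlogη : Real.log η = -(1 + (s : ℝ) / ε) * L := by
    rw [hη, Real.log_rpow ht, hLt]; ring
  obtain ⟨A', hA'X, hA'card, hA'S⟩ := hDrc V V X Y (fun x => nb c Y a x) t η s τ ht.le hη0.le hs hY
    (by
      intro x hx
      have h1 := hdeg x hx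
      have h2 : nb c Y a x ∩ Y = nb c Y a x :=
        Finset.inter_eq_left.2 (by unfold nb; exact Finset.filter_subset _ _)
      simp only [h2]
      exact h1)
  have htτ : 0 < t ^ τ := pow_pos ht τ
  -- the size
  have hkey : (n : ℝ) ^ s * η ^ τ ≤ t ^ τ * n / 2 := by
    have hs0 : (1 : ℝ) ≤ s := by exact_mod_cast hs
    have hpos1 : 0 < n ^ s * η ^ τ := mul_pos (pow_pos hn0 _) (pow_pos hη0 _)
    have hpos2 : 0 < t ^ τ * n / 2 := by positivity
    rw [← Real.log_le_log_iff hpos1 hpos2]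
    rw [Real.log_mul (pow_pos hn0 _).ne' (pow_pos hη0 _).ne', Real.log_pow, Real.log_pow, hlogη,
      Real.log_div (by positivity) (by norm_num), Real.log_mul htτ.ne' hn0.ne', Real.log_pow, hLt]
    have hlog2 : 0 ≤ Real.log 2 := Real.log_nonneg (by norm_num)
    have hlogn : 0 ≤ Real.log n := Real.log_nonneg hn1
    have h1 : (s : ℝ) * Real.log (2 * n) ≤ τ * ((s : ℝ) / ε * L) := by
      have h2 : (s : ℝ) / ε * P ≤ (s : ℝ) / ε * (τ * L) :=
        mul_le_mul_of_nonneg_left hτL1 (by positivity)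
      have h3 : (s : ℝ) / ε * P = s * Real.log (2 * n) := by
        rw [hP]; field_simp
      rw [h3] at h2
      linarith
    rw [Real.log_mul (by norm_num) hn0.ne'] at h1
    have h4 : Real.log 2 ≤ s * Real.log 2 := by nlinarith
    nlinarith
  have hcard : t ^ τ * n / 2 ≤ (A'.card : ℝ) := by
    have h1 : t ^ τ * n - n ^ s * η ^ τ ≤ (A'.card : ℝ) := hA'card
    linarith
  have hA'pos : 0 < (A'.card : ℝ) := lt_of_lt_of_le (by positivity) hcard
  have hA'ne : A'.Nonempty := by
    rw [← Finset.card_pos]; exact_mod_cast hA'pos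
  refine ⟨A', hA'X, hA'ne, ?_, ?_⟩
  · have h1 : Real.log (t ^ τ * n / 2) ≤ Real.log A'.card :=
      Real.log_le_log (by positivity) hcard
    rw [Real.log_div (by positivity) (by norm_num), Real.log_mul htτ.ne' hn0.ne', Real.log_pow,
      hLt] at h1
    have h2 : Real.log 2 ≤ 1 := by
      have := Real.log_two_lt_d9; linarith
    have h3 : P = ε * Real.log 2 + ε * Real.log n := by
      rw [hP, Real.log_mul (by norm_num) hn0.ne']; ring
    have hlog2 : 0 ≤ Real.log 2 := Real.log_nonneg (by norm_num)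
    have h4 : ε * Real.log 2 ≤ 1 := by nlinarith
    linarith
  · intro S hS hSne hScard
    have h1 := hA'S S hS hSne hScard
    have h2 : (Y.filter fun y => ∀ x ∈ S, y ∈ nb c Y a x) =
        (Y.filter fun y => ∀ x ∈ S, y ≠ x ∧ c x y = a) := by
      apply Finset.filter_congr
      intro y hy
      unfold nb
      simp only [Finset.mem_filter, hy, true_and]
    have h3 : ((Y.filter fun y => ∀ x ∈ S, y ∈ nb c Y a x).card : ℝ) =
        ((Y.filter fun y => ∀ x ∈ S, y ≠ x ∧ c x y = a).card : ℝ) := by rw [h2]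
    rw [← h3]
    exact h1

end Pool.Agent.EGF.H33
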